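import Pool.Agent.helper51.VR.Spec

/-!
# Row vr:EXT of project vr (MP_24e2e7_nt): extension of homomorphisms
-/

set_option autoImplicit false

namespace Pool.Agent.VR

open Pool.Agent.RB NumberField IsDedekindDomain Module
open scoped nonZeroDivisors Real Classical IsMulCommutative

/-- the action of an automorphism on units -/
noncomputable def EXT_su {F H : Type} [Field F] [Field H] [Algebra F H] (σ : H ≃ₐ[F] H) : Hˣ →* Hˣ :=
  Units.map ((σ : H →+* H) : H →* H)

theorem EXT_su_val {F H : Type} [Field F] [Field H] [Algebra F H] (σ : H ≃ₐ[F] H) (x : Hˣ) :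
    ((EXT_su σ x : Hˣ) : H) = σ (x : H) := rfl

theorem EXT_le (F H : Type) [Field F] [NumberField F] [Field H] [NumberField H] [Algebra F H] [IsAbelianGalois F H]
    [IsCMField H] (r s : ℕ) (D : RData F H r) (D' : RData F H s) (hT : D'.T = D.T)
    (hV : Set.range D.v ⊆ Set.range D'.v) : UU D ≤ UU D' := by
  rintro x ⟨h1, h2⟩
  refine ⟨fun P hP => h1 P ?_, fun P hP => h2 P fun h => hP (hV h)⟩
  rw [← hT]
  exact hP

theorem EXT (hEXA : EXA_stmt) (hPWR : PWR_stmt) (hFCT : FCT_stmt) : EXT_stmt := by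
  intro F H _ _ _ _ _ _ _ r s D D' hT hV
  refine ⟨EXT_le F H r s D D' hT hV, fun φ hφ => ?_⟩
  obtain ⟨-, -, -, -, hU, -, -, -⟩ := hFCT F H r D
  obtain ⟨-, -, -, hP', hU', -, -, -⟩ := hFCT F H s D'
  have hst : ∀ (σ : H ≃ₐ[F] H) (x : Hˣ), x ∈ UU D → EXT_su σ x ∈ UU D := fun σ x hx =>
    (hPWR F H (D.T : Set (HOS F)) (Set.range D.v)).1 σ x hx _ (EXT_su_val σ x)
  have hst' : ∀ (σ : H ≃ₐ[F] H) (x : Hˣ), x ∈ UU D' → EXT_su σ x ∈ UU D' := fun σ x hx =>
    (hPWR F H (D'.T : Set (HOS F)) (Set.range D'.v)).1 σ x hx _ (EXT_su_val σ x)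
  -- the additive groups
  let κ : Type := {i : Fin s // D'.v i ∉ Set.range D.v} × (H ≃ₐ[F] H)
  have : Finite κ := inferInstance
  let ρ : Additive (UU D') →+ (κ → ℤ) :=
    { toFun := fun x k => ord (act (k.2 : H ≃+* H) (D'.w k.1.1)) (((Additive.toMul x : UU D') : Hˣ) : H)
      map_zero' := by
        funext k
        exact ord_one _
      map_add' := by
        intro x y
        funext k
        exact ord_mul _ (Units.ne_zero _) (Units.ne_zero _) }
  let B : AddSubgroup (Additive (UU D')) :=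
    { carrier := {x | ((Additive.toMul x : UU D') : Hˣ) ∈ UU D}
      add_mem' := fun {a b} ha hb => (UU D).mul_mem ha hb
      zero_mem' := (UU D).one_mem
      neg_mem' := fun {a} ha => (UU D).inv_mem ha }
  have hB : ∀ x, x ∈ B ↔ ρ x = 0 := by
    intro x
    constructor
    · intro hx
      funext k
      have h1 := ((hU _).1 hx).2 (act (k.2 : H ≃+* H) (D'.w k.1.1)) (by
        rw [(hP' k.1.1 _).2 ⟨k.2, rfl⟩]
        exact k.1.2)
      exact h1
    · intro hx
      change ((Additive.toMul x : UU D') : Hˣ) ∈ UU D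
      have hx' := (hU' _).1 (Additive.toMul x : UU D').2
      refine (hU _).2 ⟨fun P hP => hx'.1 P (by rw [hT]; exact hP), fun P hP => ?_⟩
      by_cases h : P.under (𝓞 F) ∈ Set.range D'.v
      · obtain ⟨i, hi⟩ := h
        obtain ⟨σ, hσ⟩ := (hP' i P).1 hi.symm
        have h1 := congrFun hx (⟨i, by rw [hi]; exact hP⟩, σ)
        rw [← hσ]
        exact h1
      · exact hx'.2 P h
  let f : B →+ ℤ :=
    { toFun := fun x => (φ ((Additive.toMul (x : Additive (UU D')) : UU D') : Hˣ)).coeff 1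
      map_zero' := by
        have h1 := hφ.mul 1 (UU D).one_mem 1 (UU D).one_mem
        rw [mul_one] at h1
        have h2 : φ 1 = 0 := left_eq_add.1 h1
        change (φ 1).coeff 1 = 0
        rw [h2]
        rfl
      map_add' := by
        intro x y
        change (φ (((Additive.toMul (x : Additive (UU D')) : UU D') : Hˣ) *
          ((Additive.toMul (y : Additive (UU D')) : UU D') : Hˣ))).coeff 1 = _
        rw [hφ.mul _ x.2 _ y.2]
        rfl }
  obtain ⟨g, hg⟩ := hEXA (Additive (UU D')) κ ρ B hB f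
  let G : Hˣ → ℤ := fun x => if hx : x ∈ UU D' then g (Additive.ofMul ⟨x, hx⟩) else 0
  have hG : ∀ x (hx : x ∈ UU D'), G x = g (Additive.ofMul ⟨x, hx⟩) := fun x hx => dif_pos hx
  have hGm : ∀ x ∈ UU D', ∀ y ∈ UU D', G (x * y) = G x + G y := by
    intro x hx y hy
    rw [hG x hx, hG y hy, hG (x * y) ((UU D').mul_mem hx hy), ← map_add]
    rfl
  have hGD : ∀ x ∈ UU D, G x = (φ x).coeff 1 := by
    intro x hx
    rw [hG x (EXT_le F H r s D D' hT hV hx)]
    exact hg ⟨Additive.ofMul ⟨x, EXT_le F H r s D D' hT hV hx⟩, hx⟩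
  refine ⟨fun x => ∑ σ : H ≃ₐ[F] H, MonoidAlgebra.single σ (G (EXT_su σ⁻¹ x)), ⟨?_, ?_⟩, ?_⟩
  · intro x hx y hy
    rw [← Finset.sum_add_distrib]
    refine Finset.sum_congr rfl fun σ _ => ?_
    rw [map_mul, hGm _ (hst' _ _ hx) _ (hst' _ _ hy), MonoidAlgebra.single_add]
  · intro τ x hx y hy hyx
    rw [Finset.mul_sum]
    symm
    refine Fintype.sum_equiv (Equiv.mulLeft τ) _ _ fun σ => ?_
    rw [MonoidAlgebra.single_mul_single, one_mul, Equiv.coe_mulLeft]
    have h1 : EXT_su (τ * σ)⁻¹ y = EXT_su σ⁻¹ x := by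
      refine Units.ext ?_
      rw [EXT_su_val, EXT_su_val, hyx, mul_inv_rev]
      change σ⁻¹ (τ⁻¹ (τ (x : H))) = σ⁻¹ (x : H)
      congr 1
      exact τ.symm_apply_apply _
    rw [h1]
  · intro x hx
    ext σ
    rw [MonoidAlgebra.coeff_sum, Finsupp.finsetSum_apply, Finset.sum_eq_single σ]
    · rw [MonoidAlgebra.coeff_single, Finsupp.single_eq_same, hGD _ (hst _ _ hx),
        hφ.equiv σ⁻¹ x hx _ (hst _ _ hx) (EXT_su_val _ _), MonoidAlgebra.coeff_single_mul_apply]
      rw [one_mul, inv_inv, mul_one]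
    · intro τ _ hτ
      rw [MonoidAlgebra.coeff_single, Finsupp.single_eq_of_ne (Ne.symm hτ)]
    · intro h
      exact absurd (Finset.mem_univ _) h

end Pool.Agent.VR
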